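import Pool.Agent.helper26.IM.SpecA

/-!
# Project im: module SLF: slice rank in the notation of the problem
-/

set_option autoImplicit false

namespace Pool.Agent.helper26.IM

open Finset Pool.Agent.RRank Pool.Agent.helper35.MR

/-- **SLF** -/
theorem SLF (hCV : CV3_stmt) (hAFD : AFD_stmt) (hFS : FS_stmt) : SLF_stmt := by
  choose G0 hG0 using hAFD
  refine ⟨fun l => G0 l + 1, ?_⟩
  intro K _ Q T l hr
  classical
  have h1 : ¬ ∃ r' ≤ G0 l, SumOf (slices 3) T r' := by
    rintro ⟨r', hr', hs⟩
    exact not_sumOf_of_le_rank hr (Nat.lt_succ_of_le hr') hs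
  rw [hCV K Q T (G0 l)] at h1
  obtain ⟨x, y, z, hfull⟩ := hG0 l K (Q 0) (Q 1) (Q 2) _ h1
  let f : (α : Fin 3) → Fin l → Q α := fun α i => mk3 (x i) (y i) (z i) α
  have hf : ∀ i j k : Fin l, (fun α => f α ((![i, j, k] : Fin 3 → Fin l) α)) =
      mk3 (x i) (y j) (z k) := by
    intro i j k
    funext α
    match α with
    | 0 => rfl
    | 1 => rfl
    | 2 => rfl
  refine ⟨fun α => Finset.univ.image (f α), ?_, ?_⟩
  · intro α
    have := Finset.card_image_le (s := (Finset.univ : Finset (Fin l))) (f := f α)
    rw [Finset.card_univ, Fintype.card_fin] at this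
    exact this
  · have key := hFS K Q T (Fin l) f (fun α => Finset.univ.image (f α)) ?_ ?_
    · rw [Fintype.card_fin] at key
      exact key
    · intro α i
      exact Finset.mem_image_of_mem _ (Finset.mem_univ i)
    · have e : (fun i j k : Fin l => T (fun α => f α ((![i, j, k] : Fin 3 → Fin l) α))) =
          fun i j k => T (mk3 (x i) (y j) (z k)) := by
        funext i j k
        rw [hf]
      rw [e]
      exact hfull

end Pool.Agent.helper26.IM
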